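import Mathlib
import Pool.Agent.W684.FM.Ambient
import Pool.Agent.U19.LPM.VZ
import Pool.Agent.U19.LPM.Zfc

/-!
# `MP_f50f0f_gt`, Q1: a positive answer under Martin's axiom

`C_p(X)` is `↥{f : X → ℝ | Continuous f}` with the subspace topology from the product `X → ℝ`,
and `L_p(X)` is the set of finite combinations of point evaluations with the subspace topology
from the product `C(X, ℝ) → ℝ`, exactly as in the frozen statement `S14225`.

(1) Martin's axiom for `ℵ₁` dense sets can be forced, preserving all cardinals.
(2) Under this axiom the answer to the question is positive.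
(3) In ZFC it is positive for all `X` all of whose finite powers are Lindelöf, and for all `X` of
cardinality less than the continuum.
(4) In ZFC a counterexample has all finite powers of countable spread, but some finite power which
is not Lindelöf.
-/

set_option autoImplicit false

namespace Pool.Agent.Results.MP_f50f0f_gt.UnderMartin

open Cardinal Topology TopologicalSpace
open Pool.Agent.W684 Pool.Agent.W684.FM Pool.Agent.Helper669.Forcing

/-- Hereditarily separable spaces: every subset has a countable dense subset. -/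
def HereditarilySeparable (Z : Type) [TopologicalSpace Z] : Prop :=
  ∀ A : Set Z, ∃ B ⊆ A, B.Countable ∧ A ⊆ closure B

/-- Hereditarily Lindelöf spaces: every family of open sets has a countable subfamily with the same
union. -/
def HereditarilyLindelof (Z : Type) [TopologicalSpace Z] : Prop :=
  ∀ 𝒪 : Set (Set Z), (∀ O ∈ 𝒪, IsOpen O) → ∃ 𝒞 ⊆ 𝒪, 𝒞.Countable ∧ ⋃₀ 𝒞 = ⋃₀ 𝒪

/-- Every closed subspace of `C_p(X)` is separable. -/
def ClosedSeparable (X : Type) [TopologicalSpace X] : Prop :=
  ∀ S : Set ↥{f : X → ℝ | Continuous f}, IsClosed S → SeparableSpace ↥S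

/-- `L_p(X)` is perfectly normal. -/
def LpPerfectlyNormal (X : Type) [TopologicalSpace X] : Prop :=
  NormalSpace ↥(Set.range (fun a : X →₀ ℝ => fun f : C(X, ℝ) => a.sum (fun x r => r * f x))) ∧
    ∀ s : Set ↥(Set.range (fun a : X →₀ ℝ => fun f : C(X, ℝ) => a.sum (fun x r => r * f x))),
      IsClosed s → IsGδ s

/-- **Main theorem.** (1) There is a notion of forcing which preserves all cardinals, and `ω₁`,
and forces Martin's axiom for `ℵ₁` dense sets; the forced form of the axiom is equivalent to the
usual one. (2) Under Martin's axiom for `ℵ₁` dense sets: for every Tychonoff space `X`, if every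
closed subspace of `C_p(X)` is separable, then `L_p(X)` is perfectly normal; moreover all finite
powers of `X` are hereditarily Lindelöf and hereditarily separable, and all finite powers of
`C_p(X)` are hereditarily separable. (3) In ZFC, the same implication holds for all `X` all of
whose finite powers are Lindelöf and for all `X` of cardinality less than the continuum. (4) In
ZFC, if `X` is a counterexample, then every discrete subspace of a finite power of `X` is
countable, and some finite power of `X` is not Lindelöf. -/
theorem result :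
    ((∃ (P : Type) (_ : Preorder P), Nonempty P ∧ ∀ p : P,
        p ∈ CardinalsPreserved.{0, 0} P ∧ p ∈ OmegaOnePreserved P ∧ p ∈ MartinHolds P Om1) ∧
      (MartinFor Om1 ↔ MartinAxiomCard ℵ₁)) ∧
    (MartinAxiomCard ℵ₁ → ∀ (X : Type) [TopologicalSpace X] [T35Space X], ClosedSeparable X →
      LpPerfectlyNormal X ∧
      (∀ n : ℕ, HereditarilyLindelof (Fin n → X) ∧ HereditarilySeparable (Fin n → X) ∧
        HereditarilySeparable (Fin n → ↥{f : X → ℝ | Continuous f}))) ∧
    (∀ (X : Type) [TopologicalSpace X] [T35Space X], ClosedSeparable X →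
      ((∀ n : ℕ, LindelofSpace (Fin n → X)) ∨ #X < 𝔠) → LpPerfectlyNormal X) ∧
    (∀ (X : Type) [TopologicalSpace X] [T35Space X], ClosedSeparable X → ¬ LpPerfectlyNormal X →
      (∀ n : ℕ, ∀ s : Set (Fin n → X), DiscreteTopology ↥s → s.Countable) ∧
      ∃ n : ℕ, ¬ LindelofSpace (Fin n → X)) := by
  have h3 : ∀ (X : Type) [TopologicalSpace X] [T35Space X], ClosedSeparable X →
      ((∀ n : ℕ, LindelofSpace (Fin n → X)) ∨ #X < 𝔠) → LpPerfectlyNormal X := by
    intro X _ _ h hX
    rcases hX with hX | hX
    · exact Pool.Agent.U19.LPM.perfNormal_of_hlin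
        (Pool.Agent.U19.LPM.hlin_pow_of_lindelof h hX)
    · exact Pool.Agent.U19.LPM.perfNormal_of_card h hX
  refine ⟨⟨exists_forcing Om1, ?_⟩, ?_, h3, ?_⟩
  · rw [martinFor_om1_iff, martinAxiomAleph1_iff]
  · intro hMA X _ _ h
    have hMA' : Pool.Agent.Results.MP_f6eb07_gt.PowersMA.MartinAxiomAlephOne :=
      fun P _ _ hP 𝒟 h𝒟 hd => hMA P hP 𝒟 h𝒟 hd
    have hX := Pool.Agent.U19.LPM.hlin_pow hMA' h
    exact ⟨Pool.Agent.U19.LPM.perfNormal_of_hlin fun n => (hX n).1,
      fun n => ⟨(hX n).1, (hX n).2, Pool.Agent.U19.LPM.hsep_pow (fun n => (hX n).1) n⟩⟩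
  · intro X _ _ h hn
    refine ⟨fun n s hs => Pool.Agent.U19.LPM.spread_pow' h n s hs, ?_⟩
    by_contra hcon
    push Not at hcon
    exact hn (h3 X h (Or.inl hcon))

end Pool.Agent.Results.MP_f50f0f_gt.UnderMartin
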